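import Pool.Agent.Run7.h506.TA.Stm
import Pool.Agent.W774.TL.Main2
import Pool.Agent.W774.TL.Sum
import Pool.Agent.W333.TL.SMOOTH
import Pool.Agent.W740.TL.DER
import Pool.Agent.W891.TL.CVX

/-!
# Piece HPOS of project TA: fibrewise convexity of the Hamiltonian
-/

set_option autoImplicit false

namespace Pool.Agent.Run7.h64.TA

open Pool.Agent.W774.TL Pool.Agent.Run7.h506.TA Set Filter Topology
open scoped ContDiff

theorem smooth : P_SMOOTH := Pool.Agent.W333.TL.SMOOTH.smooth_thm sum_thm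
theorem der : P_DER := Pool.Agent.W740.TL.der_thm sum_thm
theorem cvx : P_CVX := Pool.Agent.W891.TL.cvx_thm sum_thm

/-- the second `p`-derivative of `h` -/
noncomputable def hpp (x p t : ℝ) : ℝ := deriv (fun s => hp x s t) p

theorem hpp_pos (x p t : ℝ) : 0 < hpp x p t := by
  have h1 := M2.hpp_pos der cvx x p t
  have h4 : deriv (fun s => h x s t) = fun s => hp x s t :=
    funext (fun s => (M2.hp_deriv der x s t).deriv)
  rw [h4] at h1
  exact h1

theorem hp_hd (x p t : ℝ) : HasDerivAt (fun s => hp x s t) (hpp x p t) p := by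
  have h1 : DifferentiableAt ℝ (fun s => hp x s t) p :=
    differentiableAt_of_deriv_ne_zero (hpp_pos x p t).ne'
  exact h1.hasDerivAt

theorem hpp_cont : Continuous (fun q : ℝ × ℝ × ℝ => hpp q.1 q.2.1 q.2.2) := by
  have hs := M2.h_smooth smooth der
  have hs2 : ContDiff ℝ 2 (fun q : ℝ × ℝ × ℝ => h q.1 q.2.1 q.2.2) := hs.of_le (by
    exact WithTop.coe_le_coe.2 le_top)
  set F : ℝ × ℝ × ℝ → ℝ := fun q => h q.1 q.2.1 q.2.2 with hF
  have hF1 : ContDiff ℝ 1 (fderiv ℝ F) := ContDiff.fderiv_right (m := 1) hs2 (by norm_num)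
  have e1 : ∀ x p t : ℝ, hp x p t = fderiv ℝ F (x, p, t) (0, 1, 0) := by
    intro x p t
    have h1 := (hs2.differentiable (by norm_num) (x, p, t)).hasFDerivAt
    have h2 : HasDerivAt (fun s : ℝ => ((x, s, t) : ℝ × ℝ × ℝ)) ((0, 1, 0) : ℝ × ℝ × ℝ) p :=
      (hasDerivAt_const p x).prodMk ((hasDerivAt_id p).prodMk (hasDerivAt_const p t))
    have h3 := h1.comp_hasDerivAt p h2
    exact (M2.hp_deriv der x p t).unique h3
  have e2 : ∀ x p t : ℝ, hpp x p t = fderiv ℝ (fderiv ℝ F) (x, p, t) (0, 1, 0) (0, 1, 0) := by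
    intro x p t
    have h0 : HasFDerivAt (fun q => fderiv ℝ F q ((0, 1, 0) : ℝ × ℝ × ℝ))
        ((ContinuousLinearMap.apply ℝ ℝ ((0, 1, 0) : ℝ × ℝ × ℝ)).comp
          (fderiv ℝ (fderiv ℝ F) (x, p, t))) (x, p, t) :=
      (ContinuousLinearMap.apply ℝ ℝ ((0, 1, 0) : ℝ × ℝ × ℝ)).hasFDerivAt.comp _
        ((hF1.differentiable (by norm_num)) _).hasFDerivAt
    have h2 : HasDerivAt (fun s : ℝ => ((x, s, t) : ℝ × ℝ × ℝ)) ((0, 1, 0) : ℝ × ℝ × ℝ) p :=
      (hasDerivAt_const p x).prodMk ((hasDerivAt_id p).prodMk (hasDerivAt_const p t))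
    have h3 := h0.comp_hasDerivAt p h2
    have h4 : (fun q => fderiv ℝ F q ((0, 1, 0) : ℝ × ℝ × ℝ)) ∘
        (fun s : ℝ => ((x, s, t) : ℝ × ℝ × ℝ)) = fun s => hp x s t := by
      funext s
      exact (e1 x s t).symm
    rw [h4] at h3
    exact (hp_hd x p t).unique h3
  have e3 : (fun q : ℝ × ℝ × ℝ => hpp q.1 q.2.1 q.2.2) =
      fun q => fderiv ℝ (fderiv ℝ F) q (0, 1, 0) (0, 1, 0) := by
    funext q
    exact e2 q.1 q.2.1 q.2.2
  rw [e3]
  have h5 : Continuous (fderiv ℝ (fderiv ℝ F)) := hF1.continuous_fderiv (by norm_num)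
  exact (h5.clm_apply continuous_const).clm_apply continuous_const

theorem hp_per (x p t : ℝ) : hp (x + 1) p t = hp x p t ∧ hp x p (t + 1) = hp x p t := by
  constructor
  · have h1 := M2.hp_deriv der (x + 1) p t
    have h2 := M2.hp_deriv der x p t
    have h3 : (fun s => h (x + 1) s t) = fun s => h x s t := funext fun s => (M2.h_per x s t).1
    rw [h3] at h1
    exact h1.unique h2
  · have h1 := M2.hp_deriv der x p (t + 1)
    have h2 := M2.hp_deriv der x p t
    have h3 : (fun s => h x s (t + 1)) = fun s => h x s t := funext fun s => (M2.h_per x s t).2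
    rw [h3] at h1
    exact h1.unique h2

theorem hpp_perx (p t : ℝ) : Function.Periodic (fun x => hpp x p t) 1 := by
  intro x
  unfold hpp
  have h3 : (fun s => hp (x + 1) s t) = fun s => hp x s t := funext fun s => (hp_per x s t).1
  simp only [h3]

theorem hpp_pert (x p : ℝ) : Function.Periodic (fun t => hpp x p t) 1 := by
  intro t
  unfold hpp
  have h3 : (fun s => hp x s (t + 1)) = fun s => hp x s t := funext fun s => (hp_per x s t).2
  simp only [h3]

theorem hpp_fract (x p t : ℝ) : hpp x p t = hpp (Int.fract x) p (Int.fract t) := by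
  have h1 : hpp x p t = hpp (Int.fract x) p t := by
    have := (hpp_perx p t).int_mul ⌊x⌋ (Int.fract x)
    simp only [mul_one] at this
    rw [Int.fract_add_floor] at this
    exact this
  have h2 : hpp (Int.fract x) p t = hpp (Int.fract x) p (Int.fract t) := by
    have := (hpp_pert (Int.fract x) p).int_mul ⌊t⌋ (Int.fract t)
    simp only [mul_one] at this
    rw [Int.fract_add_floor] at this
    exact this
  rw [h1, h2]

/-- a compact box -/
def Bx : Set (ℝ × ℝ × ℝ) := (Icc (0 : ℝ) 1) ×ˢ ((Icc (-2 : ℝ) 2) ×ˢ (Icc (0 : ℝ) 1))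

theorem Bx_comp : IsCompact Bx := isCompact_Icc.prod (isCompact_Icc.prod isCompact_Icc)

theorem mem_Bx {x p t : ℝ} (hx : 0 ≤ x ∧ x ≤ 1) (hp : -2 ≤ p ∧ p ≤ 2) (ht : 0 ≤ t ∧ t ≤ 1) :
    ((x, p, t) : ℝ × ℝ × ℝ) ∈ Bx := ⟨hx, hp, ht⟩

theorem hpp_min : ∃ q : ℝ × ℝ × ℝ, ∀ r ∈ Bx, hpp q.1 q.2.1 q.2.2 ≤ hpp r.1 r.2.1 r.2.2 := by
  have hne : Bx.Nonempty := ⟨(0, 0, 0), mem_Bx (by norm_num) (by norm_num) (by norm_num)⟩
  obtain ⟨q, -, hq⟩ := Bx_comp.exists_isMinOn hne hpp_cont.continuousOn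
  exact ⟨q, fun r hr => isMinOn_iff.1 hq r hr⟩

theorem hpp_low : ∃ δ : ℝ, 0 < δ ∧ ∀ x p t : ℝ, |p| ≤ 2 → δ ≤ hpp x p t := by
  obtain ⟨q, hq⟩ := hpp_min
  refine ⟨hpp q.1 q.2.1 q.2.2, hpp_pos _ _ _, fun x p t hp2 => ?_⟩
  rw [hpp_fract x p t]
  exact hq (Int.fract x, p, Int.fract t) (mem_Bx
    ⟨Int.fract_nonneg _, (Int.fract_lt_one _).le⟩ (abs_le.1 hp2)
    ⟨Int.fract_nonneg _, (Int.fract_lt_one _).le⟩)

theorem bet_nonneg {m : ℕ} (x : X m) : 0 ≤ bet x := by
  unfold bet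
  refine Finset.sum_nonneg fun i _ => ?_
  have h1 := Real.neg_one_le_cos (2 * Real.pi * x i.succ)
  have h2 : 0 < 4 * Real.pi ^ 2 := by positivity
  exact div_nonneg (by linarith) h2.le

theorem bet_le {m : ℕ} (x : X m) : bet x ≤ m := by
  unfold bet
  have h1 : ∀ i : Fin m, (1 + Real.cos (2 * Real.pi * x i.succ)) / (4 * Real.pi ^ 2) ≤ 1 := by
    intro i
    have h1 := Real.cos_le_one (2 * Real.pi * x i.succ)
    have h2 : 0 < 4 * Real.pi ^ 2 := by positivity
    rw [div_le_one h2]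
    have h3 := Real.pi_gt_three
    nlinarith
  calc _ ≤ ∑ i : Fin m, (1 : ℝ) := Finset.sum_le_sum fun i _ => h1 i
    _ = m := by simp

section line

variable {n : ℕ} {F : (Fin n → ℝ) × (Fin n → ℝ) × ℝ → ℝ}

lemma qline_hd (q e : (Fin n → ℝ) × (Fin n → ℝ) × ℝ) (s : ℝ) :
    HasDerivAt (fun s : ℝ => q + s • e) e s := by
  simpa using ((hasDerivAt_id s).smul_const e).const_add q

lemma sec_line (h : ContDiff ℝ 2 F) (q : (Fin n → ℝ) × (Fin n → ℝ) × ℝ) (w : Fin n → ℝ)
    (g : ℝ → ℝ) (c : ℝ)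
    (h1 : ∀ s, HasDerivAt
      (fun s : ℝ => F (q + s • ((0, w, 0) : (Fin n → ℝ) × (Fin n → ℝ) × ℝ))) (g s) s)
    (h2 : HasDerivAt g c 0) : fderiv ℝ (fderiv ℝ F) q (0, w, 0) (0, w, 0) = c := by
  have hF1 : ContDiff ℝ 1 (fderiv ℝ F) := ContDiff.fderiv_right (m := 1) h (by norm_num)
  have e1 : g = fun s : ℝ =>
      fderiv ℝ F (q + s • ((0, w, 0) : (Fin n → ℝ) × (Fin n → ℝ) × ℝ)) (0, w, 0) := by
    funext s
    have h3 := (h.differentiable (by norm_num)
      (q + s • ((0, w, 0) : (Fin n → ℝ) × (Fin n → ℝ) × ℝ))).hasFDerivAt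
    exact (h1 s).unique (h3.comp_hasDerivAt s (qline_hd q _ s))
  rw [e1] at h2
  have h0 : HasFDerivAt (fun q => fderiv ℝ F q ((0, w, 0) : (Fin n → ℝ) × (Fin n → ℝ) × ℝ))
      ((ContinuousLinearMap.apply ℝ ℝ ((0, w, 0) : (Fin n → ℝ) × (Fin n → ℝ) × ℝ)).comp
        (fderiv ℝ (fderiv ℝ F) (q + (0 : ℝ) • ((0, w, 0) : (Fin n → ℝ) × (Fin n → ℝ) × ℝ))))
      (q + (0 : ℝ) • ((0, w, 0) : (Fin n → ℝ) × (Fin n → ℝ) × ℝ)) :=
    (ContinuousLinearMap.apply ℝ ℝ ((0, w, 0) : (Fin n → ℝ) × (Fin n → ℝ) × ℝ)).hasFDerivAt.comp _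
      ((hF1.differentiable (by norm_num)) _).hasFDerivAt
  have h3 := h0.comp_hasDerivAt 0 (qline_hd q _ 0)
  have h4 := h2.unique h3
  rw [h4, zero_smul, add_zero]
  rfl

end line

theorem t_HPOS : S_KF → S_HSM → S_HPOS := by
  intro hKF hHSM m
  obtain ⟨δ, hδ, hlow⟩ := hpp_low
  have hm : (0 : ℝ) < m + 1 := by positivity
  refine ⟨2 * δ / (m + 1), by positivity, ?_⟩
  set c : ℝ := 2 * δ / (m + 1) with hc
  have hc0 : 0 < c := by positivity
  have hcm : c / 4 * m < δ := by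
    have h1 : c * (m + 1) = 2 * δ := by rw [hc]; field_simp
    nlinarith
  rintro ⟨x, p, t⟩ w hw
  obtain ⟨-, hK⟩ := hKF c hc0
  obtain ⟨hsm, -, -⟩ := hHSM m c hc0
  have hsm2 : ContDiff ℝ 2 (U (m := m) (HH c)) := hsm.of_le (WithTop.coe_le_coe.2 le_top)
  have hval : HS (U (HH c)) (x, p, t) w =
      (hpp (x 0) (p 0) t - K2 c (p 0) * bet x) * w 0 ^ 2 + ∑ i : Fin m, w i.succ ^ 2 := by
    unfold HS
    refine sec_line hsm2 (x, p, t) w
      (fun s => (hp (x 0) (p 0 + s * w 0) t - K1 c (p 0 + s * w 0) * bet x) * w 0 +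
        ∑ i : Fin m, (p i.succ + s * w i.succ) * w i.succ) _ ?_ ?_
    · intro s
      have h0 : HasDerivAt (fun s : ℝ => p 0 + s * w 0) (w 0) s := by
        simpa using ((hasDerivAt_id s).mul_const (w 0)).const_add (p 0)
      have h1 := (M2.hp_deriv der (x 0) (p 0 + s * w 0) t).comp s h0
      have h2 := ((hK (p 0 + s * w 0)).1.comp s h0).mul_const (bet x)
      have h3 : HasDerivAt (fun s : ℝ => ∑ i : Fin m, (p i.succ + s * w i.succ) ^ 2 / 2)
          (∑ i : Fin m, (p i.succ + s * w i.succ) * w i.succ) s := by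
        refine HasDerivAt.fun_sum fun i _ => ?_
        have h4 : HasDerivAt (fun s : ℝ => p i.succ + s * w i.succ) (w i.succ) s := by
          simpa using ((hasDerivAt_id s).mul_const (w i.succ)).const_add (p i.succ)
        have h5 := (h4.pow 2).div_const 2
        refine h5.congr_deriv ?_
        simp
        ring
      have h6 := (h1.sub h2).add h3
      refine (h6.congr_deriv ?_).congr_of_eventuallyEq (Filter.Eventually.of_forall fun s => ?_)
      · ring
      · simp [U, HH]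
    · have h0 : HasDerivAt (fun s : ℝ => p 0 + s * w 0) (w 0) 0 := by
        simpa using ((hasDerivAt_id (0 : ℝ)).mul_const (w 0)).const_add (p 0)
      have e0 : p 0 + 0 * w 0 = p 0 := by ring
      have h1 := (hp_hd (x 0) (p 0 + 0 * w 0) t).comp 0 h0
      have h2 := ((hK (p 0 + 0 * w 0)).2.1.comp 0 h0).mul_const (bet x)
      have h3 : HasDerivAt (fun s : ℝ => ∑ i : Fin m, (p i.succ + s * w i.succ) * w i.succ)
          (∑ i : Fin m, w i.succ ^ 2) 0 := by
        refine HasDerivAt.fun_sum fun i _ => ?_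
        have h4 : HasDerivAt (fun s : ℝ => p i.succ + s * w i.succ) (w i.succ) 0 := by
          simpa using ((hasDerivAt_id (0 : ℝ)).mul_const (w i.succ)).const_add (p i.succ)
        have h5 := h4.mul_const (w i.succ)
        refine h5.congr_deriv ?_
        ring
      have h6 := ((h1.sub h2).mul_const (w 0)).add h3
      refine h6.congr_deriv ?_
      rw [e0]
      ring
  rw [hval]
  have hb0 := bet_nonneg x
  have hb1 := bet_le x
  have ha : 0 < hpp (x 0) (p 0) t - K2 c (p 0) * bet x := by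
    obtain ⟨-, -, -, -, -, -, -, -, hk1, hk2⟩ := hK (p 0)
    rcases le_total |p 0| 2 with h | h
    · have h1 := hlow (x 0) (p 0) t h
      have h2 : K2 c (p 0) * bet x ≤ c / 4 * m :=
        (mul_le_mul_of_nonneg_right hk1 hb0).trans
          (mul_le_mul_of_nonneg_left hb1 (by positivity))
      linarith
    · have h1 := hpp_pos (x 0) (p 0) t
      have h2 := mul_nonpos_of_nonpos_of_nonneg (hk2 h) hb0
      linarith
  have hs : 0 ≤ ∑ i : Fin m, w i.succ ^ 2 := Finset.sum_nonneg fun i _ => sq_nonneg _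
  by_cases h0 : w 0 = 0
  · have h1 : ∃ i : Fin m, w i.succ ≠ 0 := by
      by_contra hcon
      push Not at hcon
      apply hw
      funext i
      exact Fin.cases h0 hcon i
    obtain ⟨i, hi⟩ := h1
    have h2 : 0 < ∑ i : Fin m, w i.succ ^ 2 :=
      Finset.sum_pos' (fun i _ => sq_nonneg _) ⟨i, Finset.mem_univ _, by positivity⟩
    rw [h0]
    simpa using h2
  · have h2 : 0 < w 0 ^ 2 := by positivity
    have h3 := mul_pos ha h2
    linarith

end Pool.Agent.Run7.h64.TA
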